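import Mathlib

open MeasureTheory Set Filter Topology

namespace Pool.Agent.Results.MP_94eb8e_an.Annulus

/-- A planar billiard table without corners: a compact connected domain `Q` of the plane
(written as `ℂ`) whose boundary is the disjoint union of finitely many simple closed `C^3`
curves `γ i`, each parametrised by arclength, of length `len i`, with `Q` on its left
(so that `I * γ'` is the inward unit normal). -/
structure Table where
  Q : Set ℂ
  compact : IsCompact Q
  connected : IsConnected Q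
  domain : closure (interior Q) = Q
  k : ℕ
  γ : Fin k → ℝ → ℂ
  len : Fin k → ℝ
  len_pos : ∀ i, 0 < len i
  smooth : ∀ i, ContDiff ℝ 3 (γ i)
  unit_speed : ∀ i s, ‖deriv (γ i) s‖ = 1
  periodic : ∀ i s, γ i (s + len i) = γ i s
  simple : ∀ i j s t, γ i s = γ j t → i = j ∧ ∃ m : ℤ, t = s + m * len i
  boundary : frontier Q = ⋃ i, range (γ i)
  inward : ∀ i s, ∀ᶠ t : ℝ in 𝓝[>] 0,
    γ i s + (t : ℂ) * (Complex.I * deriv (γ i) s) ∈ interior Q

namespace Table

variable (Y : Table)

/-- The inward unit normal at the boundary point `γ i r`. -/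
noncomputable def normal (i : Fin Y.k) (r : ℝ) : ℂ := Complex.I * deriv (Y.γ i) r

/-- The phase point with coordinates `(r, φ)` on the `i`-th boundary curve: the base point is
`γ i r` and the unit velocity makes the angle `φ` with the inward normal. -/
noncomputable def coord (i : Fin Y.k) (p : ℝ × ℝ) : ℂ × ℂ :=
  (Y.γ i p.1, (Real.cos p.2 : ℂ) * Y.normal i p.1 + (Real.sin p.2 : ℂ) * deriv (Y.γ i) p.1)

/-- Phase points with a non-tangential velocity pointing into the table. -/
def Nontangential (x : ℂ × ℂ) : Prop :=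
  ∃ i, ∃ p : ℝ × ℝ, p.2 ∈ Ioo (-(Real.pi / 2)) (Real.pi / 2) ∧ Y.coord i p = x

/-- `Y.Collide x y`: both phase points are non-tangential, the ray of `x` runs inside the
interior of the table until it first meets the boundary at the base point of `y`, and the
velocity of `y` is the mirror image of the velocity of `x` in the tangent line there. -/
def Collide (x y : ℂ × ℂ) : Prop :=
  Y.Nontangential x ∧ Y.Nontangential y ∧
  (∃ t : ℝ, 0 < t ∧ y.1 = x.1 + (t : ℂ) * x.2 ∧
    ∀ τ ∈ Ioo (0 : ℝ) t, x.1 + (τ : ℂ) * x.2 ∈ interior Y.Q) ∧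
  ∃ j r, y.1 = Y.γ j r ∧
    y.2 = x.2 - ((2 * inner ℝ x.2 (Y.normal j r) : ℝ) : ℂ) * Y.normal j r

open Classical in
/-- The billiard map (the identity where the next collision is singular). -/
noncomputable def T (x : ℂ × ℂ) : ℂ × ℂ :=
  if h : ∃ y, Y.Collide x y then h.choose else x

/-- The two-sided orbit of `x` is defined and avoids the singular set. -/
def Regular (x : ℂ × ℂ) : Prop :=
  ∃ o : ℤ → ℂ × ℂ, o 0 = x ∧ ∀ n, Y.Collide (o n) (o (n + 1))

/-- The billiard map, read in the coordinates `(r, φ)` near `x` and near its image, is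
differentiable at `x` with derivative `A`. -/
def HasDeriv (x : ℂ × ℂ) (A : ℝ × ℝ →L[ℝ] ℝ × ℝ) : Prop :=
  ∃ (i j : Fin Y.k) (p : ℝ × ℝ) (F : ℝ × ℝ → ℝ × ℝ),
    p.2 ∈ Ioo (-(Real.pi / 2)) (Real.pi / 2) ∧ Y.coord i p = x ∧
    (∀ᶠ p' in 𝓝 p, Y.Collide (Y.coord i p') (Y.coord j (F p'))) ∧
    HasFDerivAt F A p

end Table


/-! ### The annulus -/

/-- The closed annulus `1 ≤ |z| ≤ 2`. -/
def ann : Set ℂ := {z : ℂ | 1 ≤ ‖z‖ ∧ ‖z‖ ≤ 2}

lemma mem_ann (z : ℂ) : z ∈ ann ↔ 1 ≤ ‖z‖ ∧ ‖z‖ ≤ 2 := Iff.rfl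

lemma ann_eq : ann = (Metric.ball (0 : ℂ) 1)ᶜ ∩ Metric.closedBall (0 : ℂ) 2 := by
  ext z
  simp [mem_ann, not_lt]

lemma isClosed_ann : IsClosed ann := by
  rw [ann_eq]
  exact Metric.isOpen_ball.isClosed_compl.inter Metric.isClosed_closedBall

lemma isCompact_ann : IsCompact ann := by
  rw [ann_eq]
  exact (isCompact_closedBall (0 : ℂ) 2).inter_left Metric.isOpen_ball.isClosed_compl

lemma mem_interior_ann (z : ℂ) : z ∈ interior ann ↔ 1 < ‖z‖ ∧ ‖z‖ < 2 := by
  rw [ann_eq, interior_inter, interior_compl, closure_ball (0 : ℂ) (by norm_num),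
    interior_closedBall (0 : ℂ) (by norm_num)]
  simp

lemma norm_eq_ray (z : ℂ) : (‖z‖ : ℂ) * Complex.exp (Complex.arg z * Complex.I) = z :=
  Complex.norm_mul_exp_arg_mul_I z

lemma norm_ray {ρ : ℝ} (hρ : 0 ≤ ρ) (θ : ℝ) :
    ‖(ρ : ℂ) * Complex.exp (θ * Complex.I)‖ = ρ := by
  rw [norm_mul, Complex.norm_exp_ofReal_mul_I, mul_one, Complex.norm_real, Real.norm_eq_abs,
    abs_of_nonneg hρ]

lemma closure_interior_ann : closure (interior ann) = ann := by
  apply Subset.antisymm
  · exact closure_minimal interior_subset isClosed_ann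
  · intro z hz
    have h1 : ‖z‖ ∈ closure (Ioo (1 : ℝ) 2) := by
      rw [closure_Ioo (by norm_num)]
      exact hz
    have hc : Continuous (fun ρ : ℝ => (ρ : ℂ) * Complex.exp (Complex.arg z * Complex.I)) := by
      fun_prop
    have h2 : (fun ρ : ℝ => (ρ : ℂ) * Complex.exp (Complex.arg z * Complex.I)) ‖z‖ ∈
        closure ((fun ρ : ℝ => (ρ : ℂ) * Complex.exp (Complex.arg z * Complex.I)) ''
          Ioo (1 : ℝ) 2) :=
      image_closure_subset_closure_image hc (mem_image_of_mem _ h1)
    have h2' : z ∈ closure ((fun ρ : ℝ => (ρ : ℂ) * Complex.exp (Complex.arg z * Complex.I)) ''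
          Ioo (1 : ℝ) 2) := by
      have h4 : (fun ρ : ℝ => (ρ : ℂ) * Complex.exp (Complex.arg z * Complex.I)) ‖z‖ = z :=
        norm_eq_ray z
      rwa [h4] at h2
    refine closure_mono ?_ h2'
    rintro w ⟨ρ, hρ, rfl⟩
    rw [mem_interior_ann, norm_ray (by linarith [hρ.1])]
    exact hρ

lemma isConnected_ann : IsConnected ann := by
  have h : ann = (fun p : ℝ × ℝ => (p.1 : ℂ) * Complex.exp (p.2 * Complex.I)) ''
      (Icc (1 : ℝ) 2 ×ˢ (univ : Set ℝ)) := by
    ext z
    constructor
    · intro hz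
      exact ⟨(‖z‖, Complex.arg z), ⟨hz, mem_univ _⟩, norm_eq_ray z⟩
    · rintro ⟨⟨ρ, θ⟩, ⟨hρ, -⟩, rfl⟩
      rw [mem_ann, norm_ray (by linarith [hρ.1])]
      exact hρ
  rw [h]
  refine IsConnected.image ?_ _ (by fun_prop)
  exact (isConnected_Icc (by norm_num)).prod isConnected_univ

lemma mem_frontier_ann (z : ℂ) : z ∈ frontier ann ↔ ‖z‖ = 2 ∨ ‖z‖ = 1 := by
  rw [isClosed_ann.frontier_eq]
  constructor
  · rintro ⟨⟨h1, h2⟩, h3⟩
    rw [mem_interior_ann, not_and, not_lt] at h3
    rcases h1.lt_or_eq with h | h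
    · left; linarith [h3 h]
    · right; exact h.symm
  · intro h
    refine ⟨?_, ?_⟩
    · rw [mem_ann]
      rcases h with (h | h) <;> rw [h] <;> norm_num
    · rw [mem_interior_ann]
      rcases h with (h | h) <;> rw [h] <;> norm_num

/-- The two boundary circles: the outer one of radius `2`, counterclockwise, and the inner one
of radius `1`, clockwise, both by arclength. -/
noncomputable def circ : Fin 2 → ℝ → ℂ
  | 0, s => 2 * Complex.exp ((s / 2 : ℝ) * Complex.I)
  | 1, s => Complex.exp ((-s : ℝ) * Complex.I)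

lemma circ_zero (s : ℝ) : circ 0 s = 2 * Complex.exp ((s / 2 : ℝ) * Complex.I) := rfl
lemma circ_one (s : ℝ) : circ 1 s = Complex.exp ((-s : ℝ) * Complex.I) := rfl

lemma hasDerivAt_circ_zero (s : ℝ) :
    HasDerivAt (circ 0) (Complex.I * Complex.exp ((s / 2 : ℝ) * Complex.I)) s := by
  have h1 : HasDerivAt (fun s : ℝ => ((s / 2 : ℝ) : ℂ)) (((1 / 2 : ℝ)) : ℂ) s :=
    ((hasDerivAt_id s).div_const 2).ofReal_comp
  have h2 : HasDerivAt (circ 0) _ s := ((h1.mul_const Complex.I).cexp).const_mul (2 : ℂ)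
  refine h2.congr_deriv ?_
  push_cast
  ring

lemma hasDerivAt_circ_one (s : ℝ) :
    HasDerivAt (circ 1) (-(Complex.I * Complex.exp ((-s : ℝ) * Complex.I))) s := by
  have h1 : HasDerivAt (fun s : ℝ => ((-s : ℝ) : ℂ)) (((-1 : ℝ)) : ℂ) s :=
    ((hasDerivAt_id s).neg).ofReal_comp
  have h2 : HasDerivAt (circ 1) _ s := ((h1.mul_const Complex.I).cexp)
  refine h2.congr_deriv ?_
  push_cast
  ring

lemma deriv_circ_zero (s : ℝ) :
    deriv (circ 0) s = Complex.I * Complex.exp ((s / 2 : ℝ) * Complex.I) :=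
  (hasDerivAt_circ_zero s).deriv

lemma deriv_circ_one (s : ℝ) :
    deriv (circ 1) s = -(Complex.I * Complex.exp ((-s : ℝ) * Complex.I)) :=
  (hasDerivAt_circ_one s).deriv

lemma norm_circ_zero (s : ℝ) : ‖circ 0 s‖ = 2 := by
  rw [circ_zero, norm_mul, Complex.norm_exp_ofReal_mul_I]
  simp

lemma norm_circ_one (s : ℝ) : ‖circ 1 s‖ = 1 := by
  rw [circ_one, Complex.norm_exp_ofReal_mul_I]

lemma forall_fin_two' {P : Fin 2 → Prop} (h0 : P 0) (h1 : P 1) (i : Fin 2) : P i := by
  fin_cases i
  · exact h0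
  · exact h1

/-- The annulus as a billiard table. -/
noncomputable def annulus : Table where
  Q := ann
  compact := isCompact_ann
  connected := isConnected_ann
  domain := closure_interior_ann
  k := 2
  γ := circ
  len := ![4 * Real.pi, 2 * Real.pi]
  len_pos := by
    refine forall_fin_two' ?_ ?_ <;> simp [Real.pi_pos]
  smooth := by
    refine forall_fin_two' ?_ ?_
    · change ContDiff ℝ 3 (fun s : ℝ => 2 * Complex.exp ((s / 2 : ℝ) * Complex.I))
      have : ContDiff ℝ 3 (fun s : ℝ => ((s / 2 : ℝ) : ℂ)) :=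
        Complex.ofRealCLM.contDiff.comp (contDiff_id.div_const 2)
      exact contDiff_const.mul ((this.mul contDiff_const).cexp)
    · change ContDiff ℝ 3 (fun s : ℝ => Complex.exp ((-s : ℝ) * Complex.I))
      have : ContDiff ℝ 3 (fun s : ℝ => ((-s : ℝ) : ℂ)) :=
        Complex.ofRealCLM.contDiff.comp contDiff_neg
      exact ((this.mul contDiff_const).cexp)
  unit_speed := by
    refine forall_fin_two' ?_ ?_
    · intro s
      rw [deriv_circ_zero, norm_mul, Complex.norm_exp_ofReal_mul_I]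
      simp
    · intro s
      rw [deriv_circ_one, norm_neg, norm_mul, Complex.norm_exp_ofReal_mul_I]
      simp
  periodic := by
    refine forall_fin_two' ?_ ?_
    · intro s
      simp only [circ_zero, Matrix.cons_val_zero]
      congr 1
      rw [Complex.exp_eq_exp_iff_exists_int]
      exact ⟨1, by push_cast; ring⟩
    · intro s
      simp only [circ_one, Matrix.cons_val_one]
      rw [Complex.exp_eq_exp_iff_exists_int]
      exact ⟨-1, by push_cast; ring⟩
  simple := by
    refine forall_fin_two' ?_ ?_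
    · refine forall_fin_two' ?_ ?_
      · intro s t h
        refine ⟨rfl, ?_⟩
        rw [circ_zero, circ_zero] at h
        have h := mul_left_cancel₀ (by norm_num) h
        rw [Complex.exp_eq_exp_iff_exists_int] at h
        obtain ⟨n, hn⟩ := h
        have h2 := mul_right_cancel₀ Complex.I_ne_zero
          (a := ((s / 2 : ℝ) : ℂ)) (c := ((t / 2 + n * (2 * Real.pi) : ℝ) : ℂ)) (by
            rw [hn]; push_cast; ring)
        have h3 : s / 2 = t / 2 + n * (2 * Real.pi) := by exact_mod_cast h2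
        refine ⟨-n, ?_⟩
        simp only [Matrix.cons_val_zero]
        push_cast
        linarith
      · intro s t h
        exfalso
        have := congrArg norm h
        rw [norm_circ_zero, norm_circ_one] at this
        norm_num at this
    · refine forall_fin_two' ?_ ?_
      · intro s t h
        exfalso
        have := congrArg norm h
        rw [norm_circ_zero, norm_circ_one] at this
        norm_num at this
      · intro s t h
        refine ⟨rfl, ?_⟩
        rw [circ_one, circ_one] at h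
        rw [Complex.exp_eq_exp_iff_exists_int] at h
        obtain ⟨n, hn⟩ := h
        have h2 := mul_right_cancel₀ Complex.I_ne_zero
          (a := ((-s : ℝ) : ℂ)) (c := ((-t + n * (2 * Real.pi) : ℝ) : ℂ)) (by
            rw [hn]; push_cast; ring)
        have h3 : -s = -t + n * (2 * Real.pi) := by exact_mod_cast h2
        refine ⟨n, ?_⟩
        change t = s + n * (2 * Real.pi)
        linarith
  boundary := by
    ext z
    rw [mem_frontier_ann]
    simp only [mem_iUnion, mem_range]
    constructor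
    · rintro (h | h)
      · refine ⟨0, 2 * Complex.arg z, ?_⟩
        have h5 := norm_eq_ray z
        rw [h] at h5
        rw [circ_zero, show (2 * Complex.arg z) / 2 = Complex.arg z by ring]
        exact_mod_cast h5
      · refine ⟨1, -Complex.arg z, ?_⟩
        have h5 := norm_eq_ray z
        rw [h] at h5
        rw [circ_one, neg_neg]
        simpa using h5
    · rintro ⟨i, s, rfl⟩
      revert i
      refine forall_fin_two' ?_ ?_
      · left; exact norm_circ_zero s
      · right; exact norm_circ_one s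
  inward := by
    refine forall_fin_two' ?_ ?_
    · intro s
      rw [deriv_circ_zero, circ_zero]
      have : ∀ᶠ t : ℝ in 𝓝[>] 0, t ∈ Ioo (0 : ℝ) 1 := Ioo_mem_nhdsGT (by norm_num)
      filter_upwards [this] with t ht
      have e : 2 * Complex.exp ((s / 2 : ℝ) * Complex.I) +
          (t : ℂ) * (Complex.I * (Complex.I * Complex.exp ((s / 2 : ℝ) * Complex.I)))
          = ((2 - t : ℝ) : ℂ) * Complex.exp ((s / 2 : ℝ) * Complex.I) := by
        push_cast
        linear_combination ((t : ℂ) * Complex.exp ((s : ℂ) / 2 * Complex.I)) * Complex.I_mul_I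
      rw [e, mem_interior_ann, norm_ray (by linarith [ht.2])]
      constructor <;> linarith [ht.1, ht.2]
    · intro s
      rw [deriv_circ_one, circ_one]
      have : ∀ᶠ t : ℝ in 𝓝[>] 0, t ∈ Ioo (0 : ℝ) 1 := Ioo_mem_nhdsGT (by norm_num)
      filter_upwards [this] with t ht
      have e : Complex.exp ((-s : ℝ) * Complex.I) +
          (t : ℂ) * (Complex.I * -(Complex.I * Complex.exp ((-s : ℝ) * Complex.I)))
          = ((1 + t : ℝ) : ℂ) * Complex.exp ((-s : ℝ) * Complex.I) := by
        push_cast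
        linear_combination (-(t : ℂ) * Complex.exp (-(s : ℂ) * Complex.I)) * Complex.I_mul_I
      rw [e, mem_interior_ann, norm_ray (by linarith [ht.1])]
      constructor <;> linarith [ht.1, ht.2]

/-! ### General facts about the billiard map -/

namespace Table

variable (Y : Table)

lemma deriv_shift (i : Fin Y.k) (s : ℝ) (m : ℤ) :
    deriv (Y.γ i) (s + m * Y.len i) = deriv (Y.γ i) s := by
  have hp : Function.Periodic (Y.γ i) (Y.len i) := Y.periodic i
  have h1 : (fun s => Y.γ i (s + m * Y.len i)) = Y.γ i := by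
    funext s
    exact (hp.int_mul m) s
  rw [← deriv_comp_add_const, h1]

/-- The billiard map is well defined: the next collision is unique. -/
lemma Collide.unique {Y : Table} {x y z : ℂ × ℂ} (hy : Y.Collide x y) (hz : Y.Collide x z) :
    y = z := by
  obtain ⟨-, -, ⟨t, ht, hty, htI⟩, ⟨j, r, hjr, hyr⟩⟩ := hy
  obtain ⟨-, -, ⟨t', ht', htz, htI'⟩, ⟨j', r', hjr', hzr⟩⟩ := hz
  have hfy : y.1 ∈ frontier Y.Q := by
    rw [Y.boundary, hjr]
    exact mem_iUnion.2 ⟨j, mem_range_self r⟩
  have hfz : z.1 ∈ frontier Y.Q := by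
    rw [Y.boundary, hjr']
    exact mem_iUnion.2 ⟨j', mem_range_self r'⟩
  have hdis := disjoint_interior_frontier (s := Y.Q)
  have htt : t = t' := by
    rcases lt_trichotomy t t' with h | h | h
    · exact absurd hfy (Set.disjoint_left.1 hdis (hty ▸ htI' t ⟨ht, h⟩))
    · exact h
    · exact absurd hfz (Set.disjoint_left.1 hdis (htz ▸ htI t' ⟨ht', h⟩))
  have h1 : y.1 = z.1 := by rw [hty, htz, htt]
  have h2 : Y.γ j r = Y.γ j' r' := by rw [← hjr, ← hjr', h1]
  obtain ⟨hjj, m, hm⟩ := Y.simple j j' r r' h2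
  subst hjj
  have h3 : Y.normal j r' = Y.normal j r := by
    unfold Table.normal
    rw [hm, Y.deriv_shift]
  refine Prod.ext h1 ?_
  rw [hyr, hzr, h3]

lemma T_eq {Y : Table} {x y : ℂ × ℂ} (hy : Y.Collide x y) : Y.T x = y := by
  have h : ∃ y, Y.Collide x y := ⟨y, hy⟩
  unfold Table.T
  rw [dif_pos h]
  exact h.choose_spec.unique hy

end Table

/-! ### Collisions in the annulus -/

/-- The outer circle as an index. -/
noncomputable abbrev c0 : Fin annulus.k := (0 : Fin 2)

/-- The inner circle as an index. -/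
noncomputable abbrev c1 : Fin annulus.k := (1 : Fin 2)

/-- `e^{iθ}`. -/
noncomputable def E (θ : ℝ) : ℂ := Complex.exp (θ * Complex.I)

lemma E_add (a b : ℝ) : E (a + b) = E a * E b := by
  unfold E; rw [← Complex.exp_add]; push_cast; ring_nf

lemma E_eq (a : ℝ) : E a = Real.cos a + Real.sin a * Complex.I := by
  unfold E; rw [Complex.exp_mul_I]; push_cast; rfl

lemma norm_E (a : ℝ) : ‖E a‖ = 1 := Complex.norm_exp_ofReal_mul_I a

lemma E_neg_mul (a : ℝ) : E (-a) * E a = 1 := by
  rw [← E_add]; simp [E]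

lemma coord_zero (p : ℝ × ℝ) :
    annulus.coord c0 p = (2 * E (p.1 / 2), -E (p.1 / 2 - p.2)) := by
  refine Prod.ext rfl ?_
  change (Real.cos p.2 : ℂ) * (Complex.I * deriv (circ 0) p.1) +
    (Real.sin p.2 : ℂ) * deriv (circ 0) p.1 = -E (p.1 / 2 - p.2)
  rw [deriv_circ_zero, sub_eq_add_neg, E_add, E_eq (-p.2), Real.cos_neg, Real.sin_neg]
  unfold E
  push_cast
  linear_combination (Complex.cos p.2 * Complex.exp ((p.1 : ℂ) / 2 * Complex.I)) *
    Complex.I_mul_I

lemma coord_one (p : ℝ × ℝ) :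
    annulus.coord c1 p = (E (-p.1), E (-p.1 - p.2)) := by
  refine Prod.ext rfl ?_
  change (Real.cos p.2 : ℂ) * (Complex.I * deriv (circ 1) p.1) +
    (Real.sin p.2 : ℂ) * deriv (circ 1) p.1 = E (-p.1 - p.2)
  rw [deriv_circ_one, sub_eq_add_neg, E_add, E_eq (-p.2), Real.cos_neg, Real.sin_neg]
  unfold E
  push_cast
  linear_combination (-Complex.cos p.2 * Complex.exp (-(p.1 : ℂ) * Complex.I)) *
    Complex.I_mul_I

lemma normal_zero (r : ℝ) : annulus.normal c0 r = -E (r / 2) := by
  change Complex.I * deriv (circ 0) r = _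
  rw [deriv_circ_zero]
  unfold E
  linear_combination (Complex.exp (((r / 2 : ℝ) : ℂ) * Complex.I)) * Complex.I_mul_I

lemma normal_one (r : ℝ) : annulus.normal c1 r = E (-r) := by
  change Complex.I * deriv (circ 1) r = _
  rw [deriv_circ_one]
  unfold E
  linear_combination (-Complex.exp (((-r : ℝ) : ℂ) * Complex.I)) * Complex.I_mul_I

/-- The phase point on the outer circle at polar angle `θ` and reflection angle `a`. -/
noncomputable def outer (θ a : ℝ) : ℂ × ℂ := (2 * E θ, -E (θ - a))

/-- The phase point on the inner circle at polar angle `θ` and reflection angle `b`. -/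
noncomputable def inner' (θ b : ℝ) : ℂ × ℂ := (E θ, E (θ + b))

lemma coord_outer (θ a : ℝ) : annulus.coord c0 (2 * θ, a) = outer θ a := by
  rw [coord_zero]; simp [outer]

lemma coord_inner (θ b : ℝ) : annulus.coord c1 (-θ, -b) = inner' θ b := by
  rw [coord_one]; simp [inner']

lemma inner_E (a b : ℝ) : inner ℝ (E a) (E b) = Real.cos (a - b) := by
  rw [E_eq, E_eq, Real.cos_sub, Complex.inner]
  simp only [map_add, map_mul, Complex.conj_ofReal, Complex.conj_I, Complex.mul_re,
    Complex.add_re, Complex.ofReal_re, Complex.ofReal_im, Complex.neg_re, Complex.neg_im,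
    Complex.I_re, Complex.I_im, Complex.add_im, Complex.mul_im]
  ring

/-- `a` and `b` are the reflection angles, on the outer and on the inner circle, of one line. -/
def Match (a b : ℝ) : Prop :=
  a ∈ Ioo (-(Real.pi / 2)) (Real.pi / 2) ∧ b ∈ Ioo (-(Real.pi / 2)) (Real.pi / 2) ∧
    Real.sin b = 2 * Real.sin a

lemma Match.cos_pos {a b : ℝ} (h : Match a b) : 0 < Real.cos a ∧ 0 < Real.cos b :=
  ⟨Real.cos_pos_of_mem_Ioo h.1, Real.cos_pos_of_mem_Ioo h.2.1⟩

lemma Match.cos_sq {a b : ℝ} (h : Match a b) :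
    4 * Real.cos a ^ 2 = 3 + Real.cos b ^ 2 := by
  have h1 := Real.sin_sq_add_cos_sq a
  have h2 := Real.sin_sq_add_cos_sq b
  rw [h.2.2] at h2
  nlinarith

lemma Match.cos_lt {a b : ℝ} (h : Match a b) : Real.cos b < 2 * Real.cos a := by
  have h1 := h.cos_sq
  have h2 := h.cos_pos
  nlinarith

lemma Match.half_lt {a b : ℝ} (h : Match a b) : 1 < 2 * Real.cos a := by
  have h1 := h.cos_sq
  have h2 := h.cos_pos
  nlinarith

lemma norm_lin (c s : ℝ) : ‖((c : ℂ) + s * Complex.I)‖ = Real.sqrt (c ^ 2 + s ^ 2) := by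
  rw [Complex.norm_add_mul_I]

lemma seg_mem {a b : ℝ} (h : Match a b) {z : ℂ} {c : ℝ}
    (hc : c ∈ Ioo (Real.cos b) (2 * Real.cos a))
    (hz : ‖z‖ = ‖((c : ℂ) + Real.sin b * Complex.I)‖) : z ∈ interior ann := by
  rw [mem_interior_ann, hz, norm_lin]
  have h1 := Real.sin_sq_add_cos_sq b
  have h2 := h.cos_sq
  have h3 := h.cos_pos
  constructor
  · rw [Real.lt_sqrt (by norm_num)]
    nlinarith [hc.1]
  · rw [Real.sqrt_lt' (by norm_num)]
    nlinarith [hc.2, hc.1]

lemma two_E {a b : ℝ} (h : Match a b) :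
    2 * E a - ((2 * Real.cos a - Real.cos b : ℝ) : ℂ) = E b := by
  rw [E_eq, E_eq, h.2.2]
  push_cast
  ring

lemma two_E_neg {a b : ℝ} (h : Match a b) :
    2 * E (-a) - ((2 * Real.cos a - Real.cos b : ℝ) : ℂ) = E (-b) := by
  rw [E_eq, E_eq, Real.sin_neg b, h.2.2, Real.sin_neg, Real.cos_neg, Real.cos_neg]
  push_cast
  ring

lemma Match.neg_mem {a b : ℝ} (h : Match a b) :
    -b ∈ Ioo (-(Real.pi / 2)) (Real.pi / 2) := by
  have := h.2.1
  exact ⟨by linarith [this.2], by linarith [this.1]⟩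

lemma collide_outer {a b : ℝ} (h : Match a b) (θ : ℝ) :
    annulus.Collide (outer θ a) (inner' (θ + (b - a)) b) := by
  have key := two_E h
  have hE : E (θ + (b - a)) = E (θ - a) * E b := by rw [← E_add]; ring_nf
  have hE2 : E θ = E (θ - a) * E a := by rw [← E_add]; ring_nf
  refine ⟨⟨c0, (2 * θ, a), h.1, coord_outer θ a⟩,
    ⟨c1, (-(θ + (b - a)), -b), h.neg_mem, coord_inner _ _⟩, ⟨2 * Real.cos a - Real.cos b, ?_, ?_, ?_⟩,
    ⟨c1, -(θ + (b - a)), ?_, ?_⟩⟩
  · linarith [h.cos_lt]
  · simp only [outer, inner']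
    rw [hE, ← key, hE2]
    ring
  · intro τ hτ
    refine seg_mem h (c := 2 * Real.cos a - τ) ⟨by linarith [hτ.2], by linarith [hτ.1]⟩ ?_
    have e : (outer θ a).1 + (τ : ℂ) * (outer θ a).2 =
        E (θ - a) * (((2 * Real.cos a - τ : ℝ) : ℂ) + Real.sin b * Complex.I) := by
      simp only [outer]
      rw [hE2, h.2.2, E_eq a]
      push_cast
      ring
    rw [e, norm_mul, norm_E, one_mul]
  · change E (θ + (b - a)) = Complex.exp ((-(-(θ + (b - a))) : ℝ) * Complex.I)
    rw [neg_neg]; rfl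
  · have hn : annulus.normal c1 (-(θ + (b - a))) = E (θ + (b - a)) := by
      rw [normal_one, neg_neg]
    rw [hn]
    simp only [outer, inner']
    rw [inner_neg_left, inner_E, show θ - a - (θ + (b - a)) = -b by ring, Real.cos_neg,
      E_add (θ + (b - a)) b]
    have h3 : -E (θ - a) = -(E (θ + (b - a)) * E (-b)) := by
      rw [← E_add]; congr 2; ring
    rw [h3, E_eq b, E_eq (-b), Real.cos_neg, Real.sin_neg]
    push_cast
    ring

lemma collide_inner {a b : ℝ} (h : Match a b) (θ : ℝ) :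
    annulus.Collide (inner' θ b) (outer (θ + (b - a)) a) := by
  have key := two_E_neg h
  have hE : E (θ + (b - a)) = E (θ + b) * E (-a) := by rw [← E_add]; ring_nf
  have hE2 : E θ = E (θ + b) * E (-b) := by rw [← E_add]; ring_nf
  refine ⟨⟨c1, (-θ, -b), h.neg_mem, coord_inner _ _⟩,
    ⟨c0, (2 * (θ + (b - a)), a), h.1, coord_outer _ _⟩, ⟨2 * Real.cos a - Real.cos b, ?_, ?_, ?_⟩,
    ⟨c0, 2 * (θ + (b - a)), ?_, ?_⟩⟩
  · linarith [h.cos_lt]
  · simp only [outer, inner']
    rw [hE, hE2, ← key]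
    ring
  · intro τ hτ
    refine seg_mem h (c := Real.cos b + τ) ⟨by linarith [hτ.1], by linarith [hτ.2]⟩ ?_
    have e : (inner' θ b).1 + (τ : ℂ) * (inner' θ b).2 =
        E (θ + b) * (((Real.cos b + τ : ℝ) : ℂ) + ((-Real.sin b : ℝ) : ℂ) * Complex.I) := by
      simp only [inner']
      rw [hE2, E_eq (-b), Real.cos_neg, Real.sin_neg]
      push_cast
      ring
    rw [e, norm_mul, norm_E, one_mul, norm_lin, norm_lin, neg_sq]
  · change 2 * E (θ + (b - a)) = 2 * Complex.exp ((2 * (θ + (b - a)) / 2 : ℝ) * Complex.I)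
    rw [mul_div_cancel_left₀ _ (two_ne_zero)]; rfl
  · have hn : annulus.normal c0 (2 * (θ + (b - a))) = -E (θ + (b - a)) := by
      rw [normal_zero, mul_div_cancel_left₀ _ (two_ne_zero)]
    rw [hn]
    simp only [outer, inner']
    rw [inner_neg_right, inner_E, show θ + b - (θ + (b - a)) = a by ring]
    have h3 : E (θ + b) = (E (θ + (b - a)) * E a) := by
      rw [← E_add]; congr 1; ring
    have h4 : E (θ + (b - a) - a) = (E (θ + (b - a)) * E (-a)) := by
      rw [← E_add]; congr 1
    rw [h3, h4, E_eq a, E_eq (-a), Real.cos_neg, Real.sin_neg]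
    push_cast
    ring

/-! ### The invariant measure -/

/-- Reflection angle on the inner circle. -/
noncomputable def bb (u : ℝ) : ℝ := Real.arccos (Real.exp (-u⁻¹))

/-- Reflection angle on the outer circle. -/
noncomputable def aa (u : ℝ) : ℝ := Real.arcsin (Real.sin (bb u) / 2)

lemma cos_bb {u : ℝ} (hu : 0 ≤ u) : Real.cos (bb u) = Real.exp (-u⁻¹) := by
  have h1 : 0 < Real.exp (-u⁻¹) := Real.exp_pos _
  have h2 : Real.exp (-u⁻¹) ≤ 1 := by
    rw [Real.exp_le_one_iff]
    have := inv_nonneg.2 hu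
    linarith
  exact Real.cos_arccos (by linarith) h2

lemma bb_nonneg (u : ℝ) : 0 ≤ bb u := Real.arccos_nonneg _

lemma bb_lt (u : ℝ) : bb u < Real.pi / 2 := by
  unfold bb
  rw [Real.arccos_lt_pi_div_two]
  exact Real.exp_pos _

lemma match_ab (u : ℝ) : Match (aa u) (bb u) := by
  have hb1 := bb_nonneg u
  have hb2 := bb_lt u
  have hs1 : -1 ≤ Real.sin (bb u) := Real.neg_one_le_sin _
  have hs2 : Real.sin (bb u) ≤ 1 := Real.sin_le_one _
  refine ⟨⟨?_, ?_⟩, ⟨by linarith [Real.pi_pos], hb2⟩, ?_⟩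
  · unfold aa
    rw [Real.neg_pi_div_two_lt_arcsin]
    linarith
  · unfold aa
    rw [Real.arcsin_lt_pi_div_two]
    linarith
  · unfold aa
    rw [Real.sin_arcsin (by linarith) (by linarith)]
    ring

lemma cos_bb_inj {u v : ℝ} (hu : 0 ≤ u) (hv : 0 ≤ v) (h : Real.cos (bb u) = Real.cos (bb v)) :
    u = v := by
  rw [cos_bb hu, cos_bb hv, Real.exp_eq_exp, neg_inj, inv_inj] at h
  exact h

lemma E_inj_cos {a b : ℝ} (h : E a = E b) : Real.cos a = Real.cos b ∧ Real.sin a = Real.sin b := by
  rw [E_eq, E_eq] at h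
  have h1 := congrArg Complex.re h
  have h2 := congrArg Complex.im h
  simp only [Complex.add_re, Complex.mul_re, Complex.ofReal_re, Complex.ofReal_im, Complex.I_re,
    Complex.I_im, Complex.add_im, Complex.mul_im] at h1 h2
  constructor <;> linarith

lemma sin_bb_inj {u v : ℝ} (hu : 0 ≤ u) (hv : 0 ≤ v) (h : Real.sin (bb u) = Real.sin (bb v)) :
    u = v := by
  refine cos_bb_inj hu hv ?_
  have h1 := Real.sin_sq_add_cos_sq (bb u)
  have h2 := Real.sin_sq_add_cos_sq (bb v)
  have h3 := (match_ab u).cos_pos.2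
  have h4 := (match_ab v).cos_pos.2
  rw [h] at h1
  have h5 : Real.cos (bb u) ^ 2 = Real.cos (bb v) ^ 2 := by linarith
  exact (sq_eq_sq₀ h3.le h4.le).1 h5

/-- The angle `b - a` by which the polar angle grows in one collision. -/
noncomputable def dd (u : ℝ) : ℝ := bb u - aa u

lemma dd_inj {u v : ℝ} (hu : 0 ≤ u) (hv : 0 ≤ v) (h : E (dd u) = E (dd v)) : u = v := by
  -- the line is determined by the two points `2` and `E (dd u)`
  have key : ∀ w : ℝ, ((2 * Real.cos (aa w) - Real.cos (bb w) : ℝ) : ℂ) =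
      E (bb w) * (2 * E (-(dd w)) - 1) := by
    intro w
    have h1 := two_E (match_ab w)
    have h2 : E (aa w) = E (bb w) * E (-(dd w)) := by
      rw [← E_add]; unfold dd; congr 1; ring
    rw [mul_sub, mul_one, mul_left_comm, ← h2]
    linear_combination (-1 : ℂ) * h1
  have hpos : ∀ w : ℝ, 0 < 2 * Real.cos (aa w) - Real.cos (bb w) := fun w => by
    linarith [(match_ab w).cos_lt]
  have hneg : E (-(dd u)) = E (-(dd v)) := by
    have h1 := E_neg_mul (dd u)
    have h2 := E_neg_mul (dd v)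
    have h3 : E (dd u) ≠ 0 := by
      intro h0
      have := norm_E (dd u)
      rw [h0] at this
      simp at this
    rw [← h] at h2
    exact mul_right_cancel₀ h3 (h1.trans h2.symm)
  have hnorm : ∀ w : ℝ, 2 * Real.cos (aa w) - Real.cos (bb w) = ‖(2 * E (-(dd w)) - 1)‖ := by
    intro w
    have := congrArg norm (key w)
    rw [norm_mul, norm_E, one_mul, Complex.norm_real, Real.norm_eq_abs, abs_of_pos (hpos w)] at this
    exact this
  have h5 : 2 * Real.cos (aa u) - Real.cos (bb u) = 2 * Real.cos (aa v) - Real.cos (bb v) := by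
    rw [hnorm u, hnorm v, hneg]
  have h6 : E (bb u) = E (bb v) := by
    have h7 := key u
    have h8 := key v
    rw [← h5, ← hneg, h7] at h8
    have h9 : (2 * E (-(dd u)) - 1) ≠ 0 := by
      intro h0
      have := hnorm u
      rw [h0, norm_zero] at this
      linarith [hpos u]
    exact mul_right_cancel₀ h9 h8
  exact cos_bb_inj hu hv (E_inj_cos h6).1

/-- The parameter space: `u` fixes the angular momentum, the Boolean says whether the point is on
the outer circle, and the last entry is the position on the circle. -/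
abbrev Om : Type := (unitInterval × Bool) × UnitAddCircle

/-- The position on the unit circle. -/
noncomputable def zz (x : UnitAddCircle) : ℂ := (AddCircle.toCircle x : Circle)

lemma zz_coe (r : ℝ) : zz (r : UnitAddCircle) = E (2 * Real.pi * r) := by
  unfold zz E
  rw [AddCircle.toCircle_apply_mk, Circle.coe_exp]
  simp

lemma exists_zz (x : UnitAddCircle) : ∃ θ : ℝ, zz x = E θ := by
  induction x using QuotientAddGroup.induction_on with
  | H r => exact ⟨_, zz_coe r⟩

lemma norm_zz (x : UnitAddCircle) : ‖zz x‖ = 1 := by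
  obtain ⟨θ, h⟩ := exists_zz x
  rw [h, norm_E]

lemma zz_add (x : UnitAddCircle) (d : ℝ) :
    zz (x + ((d / (2 * Real.pi) : ℝ) : UnitAddCircle)) = zz x * E d := by
  have h : zz ((d / (2 * Real.pi) : ℝ) : UnitAddCircle) = E d := by
    rw [zz_coe]
    congr 1
    field_simp
  rw [← h]
  unfold zz
  rw [AddCircle.toCircle_add]
  rfl

lemma zz_inj {x y : UnitAddCircle} (h : zz x = zz y) : x = y := by
  have h1 : AddCircle.toCircle x = AddCircle.toCircle y := by
    apply Circle.ext
    exact h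
  exact AddCircle.injective_toCircle one_ne_zero h1

lemma continuous_zz : Continuous zz := by
  unfold zz
  exact continuous_subtype_val.comp AddCircle.continuous_toCircle

/-- The parametrisation of the support of the measure. -/
noncomputable def Ph (w : Om) : ℂ × ℂ :=
  if w.1.2 = true then (2 * zz w.2, -(zz w.2 * E (-(aa w.1.1)))) else
    (zz w.2, zz w.2 * E (bb w.1.1))

/-- The billiard map in the parameters. -/
noncomputable def S (w : Om) : Om :=
  ((w.1.1, !w.1.2), w.2 + ((dd w.1.1 / (2 * Real.pi) : ℝ) : UnitAddCircle))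

lemma Ph_true (u : unitInterval) {x : UnitAddCircle} {θ : ℝ} (h : zz x = E θ) :
    Ph ((u, true), x) = outer θ (aa u) := by
  simp only [Ph, if_true, outer, h]
  rw [← E_add, sub_eq_add_neg]

lemma Ph_false (u : unitInterval) {x : UnitAddCircle} {θ : ℝ} (h : zz x = E θ) :
    Ph ((u, false), x) = inner' θ (bb u) := by
  simp only [Ph, inner', h, E_add]
  simp

lemma collide_Ph (w : Om) : annulus.Collide (Ph w) (Ph (S w)) := by
  obtain ⟨⟨u, s⟩, x⟩ := w
  obtain ⟨θ, hθ⟩ := exists_zz x
  have h2 : zz (x + ((dd u / (2 * Real.pi) : ℝ) : UnitAddCircle)) = E (θ + (bb u - aa u)) := by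
    rw [zz_add, hθ, ← E_add]
    rfl
  cases s with
  | true =>
    have h3 : S ((u, true), x) = ((u, false), x + ((dd u / (2 * Real.pi) : ℝ) : UnitAddCircle)) :=
      rfl
    rw [h3, Ph_true u hθ, Ph_false u h2]
    exact collide_outer (match_ab u) θ
  | false =>
    have h3 : S ((u, false), x) = ((u, true), x + ((dd u / (2 * Real.pi) : ℝ) : UnitAddCircle)) :=
      rfl
    rw [h3, Ph_false u hθ, Ph_true u h2]
    exact collide_inner (match_ab u) θ

lemma T_Ph (w : Om) : annulus.T (Ph w) = Ph (S w) := Table.T_eq (collide_Ph w)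

lemma injective_Ph : Function.Injective Ph := by
  rintro ⟨⟨u, s⟩, x⟩ ⟨⟨v, s'⟩, y⟩ h
  have hu := u.2.1
  have hv := v.2.1
  have h2 : ‖(2 : ℂ)‖ = 2 := by simp
  have ne : ∀ x : UnitAddCircle, zz x ≠ 0 := by
    intro x h0
    have := norm_zz x
    rw [h0] at this
    simp at this
  cases s <;> cases s' <;> simp only [Ph, if_true, Prod.mk.injEq, Bool.false_eq_true,
    if_false] at h
  · have hx := zz_inj h.1
    subst hx
    have h3 := mul_left_cancel₀ (ne x) h.2
    have h4 := cos_bb_inj hu hv (E_inj_cos h3).1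
    have h5 : u = v := Subtype.ext h4
    rw [h5]
  · exfalso
    have := congrArg norm h.1
    rw [norm_mul, norm_zz, norm_zz, h2] at this
    norm_num at this
  · exfalso
    have := congrArg norm h.1
    rw [norm_mul, norm_zz, norm_zz, h2] at this
    norm_num at this
  · have hx := zz_inj (mul_left_cancel₀ two_ne_zero h.1)
    subst hx
    have h3 := mul_left_cancel₀ (ne x) (neg_inj.1 h.2)
    have h4 := (E_inj_cos h3).2
    rw [Real.sin_neg, Real.sin_neg, neg_inj] at h4
    have h6 : Real.sin (bb u) = Real.sin (bb v) := by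
      rw [(match_ab u).2.2, (match_ab v).2.2, h4]
    have h5 : u = v := Subtype.ext (sin_bb_inj hu hv h6)
    rw [h5]

lemma measurable_bb : Measurable bb := by
  unfold bb
  exact Real.measurable_arccos.comp (Real.measurable_exp.comp (measurable_inv.neg))

lemma measurable_aa : Measurable aa := by
  unfold aa
  exact Real.measurable_arcsin.comp ((Real.measurable_sin.comp measurable_bb).div_const 2)

lemma measurable_dd : Measurable dd := measurable_bb.sub measurable_aa

lemma continuous_E : Continuous E := by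
  unfold E
  fun_prop

lemma measurable_Ph : Measurable Ph := by
  have hz : Measurable (fun w : Om => zz w.2) := continuous_zz.measurable.comp measurable_snd
  have hu : Measurable (fun w : Om => (w.1.1 : ℝ)) :=
    measurable_subtype_coe.comp (measurable_fst.comp measurable_fst)
  have hE := continuous_E.measurable
  refine Measurable.ite ?_ ?_ ?_
  · exact (measurable_snd.comp measurable_fst) (measurableSet_singleton true)
  · exact (hz.const_mul 2).prodMk (hz.mul (hE.comp (measurable_aa.comp hu).neg)).neg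
  · exact hz.prodMk (hz.mul (hE.comp (measurable_bb.comp hu)))

lemma embedding_Ph : MeasurableEmbedding Ph := measurable_Ph.measurableEmbedding injective_Ph

/-- The fair coin. -/
noncomputable def coin : Measure Bool := (2⁻¹ : ENNReal) • Measure.count

instance : IsProbabilityMeasure coin := by
  constructor
  simp only [coin, Measure.smul_apply, smul_eq_mul]
  rw [Measure.count_univ]
  simp
  exact ENNReal.inv_mul_cancel (by norm_num) (by norm_num)

lemma coin_not : MeasurePreserving not coin coin := by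
  refine ⟨measurable_from_top, ?_⟩
  ext s hs
  rw [Measure.map_apply measurable_from_top hs]
  have h1 : not ⁻¹' s = not '' s := by
    ext b
    constructor
    · intro h
      exact ⟨!b, h, Bool.not_not b⟩
    · rintro ⟨c, hc, rfl⟩
      simpa using hc
  rw [h1]
  simp only [coin, Measure.smul_apply, smul_eq_mul]
  rw [Measure.count_injective_image Bool.not_injective]

/-- The probability measure on the parameter space. -/
noncomputable def P : Measure Om :=
  ((volume : Measure unitInterval).prod coin).prod (volume : Measure UnitAddCircle)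

instance : IsProbabilityMeasure (volume : Measure UnitAddCircle) :=
  ⟨UnitAddCircle.measure_univ⟩

instance : IsProbabilityMeasure P := by
  unfold P; infer_instance

lemma S_preserving : MeasurePreserving S P P := by
  have h1 : MeasurePreserving (fun p : unitInterval × Bool => (p.1, !p.2))
      ((volume : Measure unitInterval).prod coin) ((volume : Measure unitInterval).prod coin) :=
    (MeasurePreserving.id _).prod coin_not
  have h2 := h1.skew_product (μc := (volume : Measure UnitAddCircle))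
    (μd := (volume : Measure UnitAddCircle))
    (g := fun p x => x + ((dd p.1 / (2 * Real.pi) : ℝ) : UnitAddCircle)) ?_ ?_
  · exact h2
  · have h3 : Measurable (fun r : ℝ => (r : UnitAddCircle)) := AddCircle.measurable_mk'
    refine measurable_snd.add (h3.comp ?_)
    exact ((measurable_dd.comp (measurable_subtype_coe.comp
      (measurable_fst.comp measurable_fst))).div_const _)
  · exact Eventually.of_forall fun p => (measurePreserving_add_right volume _).map_eq

/-- `S` as a bijection. -/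
noncomputable def Sperm : Equiv.Perm Om where
  toFun := S
  invFun w := ((w.1.1, !w.1.2), w.2 - ((dd w.1.1 / (2 * Real.pi) : ℝ) : UnitAddCircle))
  left_inv w := by
    obtain ⟨⟨u, s⟩, x⟩ := w
    simp [S]
  right_inv w := by
    obtain ⟨⟨u, s⟩, x⟩ := w
    simp [S]

lemma regular_Ph (w : Om) : annulus.Regular (Ph w) := by
  refine ⟨fun n => Ph ((Sperm ^ n) w), by simp, fun n => ?_⟩
  have h : (Sperm ^ (n + 1)) w = S ((Sperm ^ n) w) := by
    rw [add_comm, zpow_add, zpow_one]
    rfl
  change annulus.Collide (Ph ((Sperm ^ n) w)) (Ph ((Sperm ^ (n + 1)) w))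
  rw [h]
  exact collide_Ph _

lemma iterate_T (n : ℕ) (w : Om) : annulus.T^[n] (Ph w) = Ph (S^[n] w) := by
  induction n generalizing w with
  | zero => rfl
  | succ n ih => rw [Function.iterate_succ_apply, Function.iterate_succ_apply, T_Ph, ih]

lemma iterate_S (n : ℕ) (w : Om) :
    (S^[n] w).1.1 = w.1.1 ∧ zz (S^[n] w).2 = zz w.2 * E (dd w.1.1) ^ n := by
  induction n generalizing w with
  | zero => simp
  | succ n ih =>
    rw [Function.iterate_succ_apply]
    obtain ⟨h1, h2⟩ := ih (S w)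
    have h3 : (S w).1.1 = w.1.1 := rfl
    have h4 : zz (S w).2 = zz w.2 * E (dd w.1.1) := zz_add _ _
    refine ⟨by rw [h1, h3], ?_⟩
    rw [h2, h3, h4, pow_succ]
    ring

lemma root_of_periodic {n : ℕ} {w : Om} (h : annulus.T^[n] (Ph w) = Ph w) :
    E (dd w.1.1) ^ n = 1 := by
  rw [iterate_T] at h
  have h1 := injective_Ph h
  have h2 := (iterate_S n w).2
  rw [h1] at h2
  have h3 : zz w.2 ≠ 0 := by
    intro h0
    have := norm_zz w.2
    rw [h0] at this
    simp at this
  have h4 : zz w.2 * E (dd w.1.1) ^ n = zz w.2 * 1 := by rw [mul_one]; exact h2.symm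
  exact mul_left_cancel₀ h3 h4

lemma null_roots (n : ℕ) (hn : 1 ≤ n) :
    ∀ᵐ u : unitInterval ∂(volume : Measure unitInterval), E (dd u) ^ n ≠ 1 := by
  have hfin : {u : unitInterval | E (dd u) ^ n = 1}.Finite := by
    have h1 : {z : ℂ | z ^ n = 1}.Finite := by
      refine (Polynomial.nthRootsFinset n (1 : ℂ)).finite_toSet.subset ?_
      intro z hz
      rw [Finset.mem_coe, Polynomial.mem_nthRootsFinset (by omega)]
      exact hz
    refine Set.Finite.preimage (f := fun u : unitInterval => E (dd u)) ?_ h1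
    intro u _ v _ huv
    exact Subtype.ext (dd_inj u.2.1 v.2.1 huv)
  have h0 := hfin.measure_zero (volume : Measure unitInterval)
  rw [ae_iff]
  simpa using h0

lemma aperiodic : ∀ᵐ w ∂P, ∀ n, 1 ≤ n → annulus.T^[n] (Ph w) ≠ Ph w := by
  rw [ae_all_iff]
  intro n
  by_cases hn : 1 ≤ n
  · have h1 : ∀ᵐ w ∂P, E (dd w.1.1) ^ n ≠ 1 := by
      have h2 : ∀ᵐ p : unitInterval × Bool ∂((volume : Measure unitInterval).prod coin),
          E (dd p.1) ^ n ≠ 1 :=
        Measure.quasiMeasurePreserving_fst.ae (null_roots n hn)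
      exact Measure.quasiMeasurePreserving_fst.ae h2
    filter_upwards [h1] with w hw _ h
    exact hw (root_of_periodic h)
  · exact Eventually.of_forall fun w h => absurd h hn

/-! ### The derivative of the billiard map -/

lemma fin_cases' (j : Fin annulus.k) : j = c0 ∨ j = c1 :=
  forall_fin_two' (P := fun j => j = 0 ∨ j = 1) (Or.inl rfl) (Or.inr rfl) j

/-- The angular momentum. -/
noncomputable def L (x : ℂ × ℂ) : ℝ := x.1.re * x.2.im - x.1.im * x.2.re

lemma L_coord_zero (p : ℝ × ℝ) : L (annulus.coord c0 p) = 2 * Real.sin p.2 := by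
  rw [coord_zero, sub_eq_add_neg, E_add, E_eq (p.1 / 2), E_eq (-p.2), Real.cos_neg, Real.sin_neg]
  have h := Real.sin_sq_add_cos_sq (p.1 / 2)
  simp only [L, Complex.add_re, Complex.mul_re, Complex.ofReal_re, Complex.ofReal_im,
    Complex.I_re, Complex.I_im, Complex.add_im, Complex.mul_im, Complex.neg_re, Complex.neg_im,
    Complex.re_ofNat, Complex.im_ofNat]
  linear_combination (2 * Real.sin p.2) * h

lemma L_coord_one (p : ℝ × ℝ) : L (annulus.coord c1 p) = -Real.sin p.2 := by
  rw [coord_one, sub_eq_add_neg, E_add, E_eq (-p.1), E_eq (-p.2), Real.cos_neg p.2,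
    Real.sin_neg p.2]
  have h := Real.sin_sq_add_cos_sq (-p.1)
  simp only [L, Complex.add_re, Complex.mul_re, Complex.ofReal_re, Complex.ofReal_im,
    Complex.I_re, Complex.I_im, Complex.add_im, Complex.mul_im]
  linear_combination (-Real.sin p.2) * h

lemma collide_L {x y : ℂ × ℂ} (h : annulus.Collide x y) : L y = L x := by
  obtain ⟨-, -, ⟨t, -, ht, -⟩, ⟨j, r, hj, hy⟩⟩ := h
  have hn : ∃ ρ : ℝ, annulus.normal j r = (ρ : ℂ) * y.1 := by
    rcases fin_cases' j with rfl | rfl
    · refine ⟨-(1 / 2), ?_⟩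
      rw [normal_zero, hj]
      change -E (r / 2) = _ * (2 * E (r / 2))
      push_cast
      ring
    · refine ⟨1, ?_⟩
      rw [normal_one, hj]
      change E (-r) = _ * (E (-r))
      push_cast
      ring
  obtain ⟨ρ, hρ⟩ := hn
  have h1 : L y = y.1.re * x.2.im - y.1.im * x.2.re := by
    rw [hρ] at hy
    generalize ((2 * inner ℝ x.2 ((ρ : ℂ) * y.1) : ℝ) : ℝ) = c at hy
    unfold L
    rw [hy]
    simp only [Complex.sub_re, Complex.sub_im, Complex.mul_re, Complex.mul_im, Complex.ofReal_re,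
      Complex.ofReal_im]
    ring
  rw [h1, ht]
  unfold L
  simp only [Complex.add_re, Complex.add_im, Complex.mul_re, Complex.mul_im, Complex.ofReal_re,
    Complex.ofReal_im]
  ring

/-- The billiard map from the outer to the inner circle in coordinates. -/
noncomputable def Fout (p : ℝ × ℝ) : ℝ × ℝ :=
  (-(p.1 / 2 + (Real.arcsin (2 * Real.sin p.2) - p.2)), -Real.arcsin (2 * Real.sin p.2))

/-- The billiard map from the inner to the outer circle in coordinates. -/
noncomputable def Fin' (p : ℝ × ℝ) : ℝ × ℝ :=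
  (2 * (-p.1 + (-p.2 - Real.arcsin (-Real.sin p.2 / 2))), Real.arcsin (-Real.sin p.2 / 2))

lemma match_of_outer {a : ℝ} (ha : a ∈ Ioo (-(Real.pi / 2)) (Real.pi / 2))
    (h : 2 * Real.sin a ∈ Ioo (-1 : ℝ) 1) : Match a (Real.arcsin (2 * Real.sin a)) :=
  ⟨ha, ⟨Real.neg_pi_div_two_lt_arcsin.2 h.1, Real.arcsin_lt_pi_div_two.2 h.2⟩,
    Real.sin_arcsin h.1.le h.2.le⟩

lemma match_of_inner {b : ℝ} (hb : b ∈ Ioo (-(Real.pi / 2)) (Real.pi / 2)) :
    Match (Real.arcsin (Real.sin b / 2)) b := by
  have hs1 : -1 ≤ Real.sin b := Real.neg_one_le_sin _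
  have hs2 : Real.sin b ≤ 1 := Real.sin_le_one _
  refine ⟨⟨?_, ?_⟩, hb, ?_⟩
  · rw [Real.neg_pi_div_two_lt_arcsin]
    linarith
  · rw [Real.arcsin_lt_pi_div_two]
    linarith
  · rw [Real.sin_arcsin (by linarith) (by linarith)]
    ring

lemma collide_Fout {p : ℝ × ℝ} (ha : p.2 ∈ Ioo (-(Real.pi / 2)) (Real.pi / 2))
    (h : 2 * Real.sin p.2 ∈ Ioo (-1 : ℝ) 1) :
    annulus.Collide (annulus.coord c0 p) (annulus.coord c1 (Fout p)) := by
  have h1 := collide_outer (match_of_outer ha h) (p.1 / 2)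
  rw [← coord_outer, ← coord_inner] at h1
  rw [mul_div_cancel₀ _ (two_ne_zero)] at h1
  exact h1

lemma collide_Fin {p : ℝ × ℝ} (ha : p.2 ∈ Ioo (-(Real.pi / 2)) (Real.pi / 2)) :
    annulus.Collide (annulus.coord c1 p) (annulus.coord c0 (Fin' p)) := by
  have hb : -p.2 ∈ Ioo (-(Real.pi / 2)) (Real.pi / 2) := ⟨by linarith [ha.2], by linarith [ha.1]⟩
  have h1 := collide_inner (match_of_inner hb) (-p.1)
  rw [← coord_outer, ← coord_inner, neg_neg, neg_neg, Real.sin_neg] at h1
  exact h1

lemma hasDeriv_outer {a b : ℝ} (h : Match a b) (θ : ℝ) :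
    ∃ A, annulus.HasDeriv (outer θ a) A := by
  have hs : 2 * Real.sin a ∈ Ioo (-1 : ℝ) 1 := by
    rw [← h.2.2]
    have h1 := Real.sin_sq_add_cos_sq b
    have h2 := h.cos_pos.2
    constructor <;> nlinarith
  have hd : DifferentiableAt ℝ Fout (2 * θ, a) := by
    have h3 : DifferentiableAt ℝ (fun p : ℝ × ℝ => Real.arcsin (2 * Real.sin p.2)) (2 * θ, a) := by
      have h4 : DifferentiableAt ℝ Real.arcsin (2 * Real.sin ((2 * θ, a) : ℝ × ℝ).2) :=
        Real.differentiableAt_arcsin.2 ⟨hs.1.ne', hs.2.ne⟩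
      have h5 : DifferentiableAt ℝ (fun p : ℝ × ℝ => 2 * Real.sin p.2) (2 * θ, a) := by
        fun_prop
      have h6 : DifferentiableAt ℝ (Real.arcsin ∘ fun p : ℝ × ℝ => 2 * Real.sin p.2) (2 * θ, a) :=
        DifferentiableAt.comp _ h4 h5
      exact h6
    have h7 : DifferentiableAt ℝ (fun p : ℝ × ℝ => p.1 / 2) (2 * θ, a) := by fun_prop
    have h8 : DifferentiableAt ℝ (fun p : ℝ × ℝ => p.2) (2 * θ, a) := by fun_prop
    exact ((h7.add (h3.sub h8)).neg).prodMk h3.neg
  refine ⟨fderiv ℝ Fout (2 * θ, a), c0, c1, (2 * θ, a), Fout, h.1, coord_outer θ a, ?_,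
    hd.hasFDerivAt⟩
  have e1 : ∀ᶠ p' : ℝ × ℝ in 𝓝 (2 * θ, a), p'.2 ∈ Ioo (-(Real.pi / 2)) (Real.pi / 2) :=
    (continuous_snd.tendsto _).eventually (isOpen_Ioo.mem_nhds h.1)
  have e2 : ∀ᶠ p' : ℝ × ℝ in 𝓝 (2 * θ, a), 2 * Real.sin p'.2 ∈ Ioo (-1 : ℝ) 1 := by
    have hc : Continuous (fun p : ℝ × ℝ => 2 * Real.sin p.2) := by fun_prop
    exact (hc.tendsto _).eventually (isOpen_Ioo.mem_nhds hs)
  filter_upwards [e1, e2] with p' h1 h2
  exact collide_Fout h1 h2

lemma hasDeriv_inner {a b : ℝ} (h : Match a b) (θ : ℝ) :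
    ∃ A, annulus.HasDeriv (inner' θ b) A := by
  have hd : DifferentiableAt ℝ Fin' (-θ, -b) := by
    have h3 : DifferentiableAt ℝ (fun p : ℝ × ℝ => Real.arcsin (-Real.sin p.2 / 2)) (-θ, -b) := by
      have h4 : DifferentiableAt ℝ Real.arcsin (-Real.sin ((-θ, -b) : ℝ × ℝ).2 / 2) := by
        refine Real.differentiableAt_arcsin.2 ⟨?_, ?_⟩
        · have := Real.sin_le_one ((-θ, -b) : ℝ × ℝ).2
          intro h0; linarith
        · have := Real.neg_one_le_sin ((-θ, -b) : ℝ × ℝ).2
          intro h0; linarith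
      have h5 : DifferentiableAt ℝ (fun p : ℝ × ℝ => -Real.sin p.2 / 2) (-θ, -b) := by
        fun_prop
      have h6 : DifferentiableAt ℝ (Real.arcsin ∘ fun p : ℝ × ℝ => -Real.sin p.2 / 2) (-θ, -b) :=
        DifferentiableAt.comp _ h4 h5
      exact h6
    have h7 : DifferentiableAt ℝ (fun p : ℝ × ℝ => -p.1) (-θ, -b) := by fun_prop
    have h8 : DifferentiableAt ℝ (fun p : ℝ × ℝ => -p.2) (-θ, -b) := by fun_prop
    exact ((h7.add (h8.sub h3)).const_mul 2).prodMk h3
  refine ⟨fderiv ℝ Fin' (-θ, -b), c1, c0, (-θ, -b), Fin', h.neg_mem, coord_inner θ b, ?_,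
    hd.hasFDerivAt⟩
  have e1 : ∀ᶠ p' : ℝ × ℝ in 𝓝 (-θ, -b), p'.2 ∈ Ioo (-(Real.pi / 2)) (Real.pi / 2) :=
    (continuous_snd.tendsto _).eventually (isOpen_Ioo.mem_nhds h.neg_mem)
  filter_upwards [e1] with p' h1
  exact collide_Fin h1

lemma exists_hasDeriv (w : Om) : ∃ A, annulus.HasDeriv (Ph w) A := by
  obtain ⟨⟨u, s⟩, x⟩ := w
  obtain ⟨θ, hθ⟩ := exists_zz x
  cases s with
  | true => rw [Ph_true u hθ]; exact hasDeriv_outer (match_ab u) θ
  | false => rw [Ph_false u hθ]; exact hasDeriv_inner (match_ab u) θ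

/-- At a point of the outer circle from which the ball hits the inner circle at the angle `b`,
the derivative of the billiard map has norm at least `1 / cos b`. -/
lemma deriv_lower {a b : ℝ} (h : Match a b) (θ : ℝ) {A : ℝ × ℝ →L[ℝ] ℝ × ℝ}
    (hA : annulus.HasDeriv (outer θ a) A) : (Real.cos b)⁻¹ ≤ ‖A‖ := by
  obtain ⟨i, j, p, F, hp, hx, hF, hA⟩ := hA
  have hi : i = c0 := by
    rcases fin_cases' i with rfl | rfl
    · rfl
    · exfalso
      have h1 := congrArg (fun x : ℂ × ℂ => ‖x.1‖) hx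
      simp only [coord_one, outer, norm_mul, norm_E] at h1
      norm_num at h1
  subst hi
  have hself := hF.self_of_nhds
  rw [hx] at hself
  have hnext := hself.unique (collide_outer h θ)
  have hj : j = c1 := by
    rcases fin_cases' j with rfl | rfl
    · exfalso
      have h1 := congrArg (fun x : ℂ × ℂ => ‖x.1‖) hnext
      simp only [coord_zero, inner', norm_mul, norm_E] at h1
      norm_num at h1
    · rfl
  subst hj
  -- conservation of the angular momentum near `p`
  have hL : ∀ᶠ p' in 𝓝 p, Real.sin (F p').2 = -(2 * Real.sin p'.2) := by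
    filter_upwards [hF] with p' hp'
    have h1 := collide_L hp'
    rw [L_coord_one, L_coord_zero] at h1
    linarith
  have hsin : Real.sin p.2 = Real.sin a := by
    have h1 : L (annulus.coord c0 p) = L (annulus.coord c0 (2 * θ, a)) := by
      rw [hx, coord_outer]
    rw [L_coord_zero, L_coord_zero] at h1
    simp only at h1
    linarith
  have hpa : p.2 = a := by
    apply Real.injOn_sin _ _ hsin
    · exact ⟨hp.1.le, hp.2.le⟩
    · exact ⟨h.1.1.le, h.1.2.le⟩
  -- differentiate along the angle direction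
  have hline : HasDerivAt (fun t : ℝ => (p.1, t)) ((0 : ℝ), (1 : ℝ)) p.2 :=
    (hasDerivAt_const _ _).prodMk (hasDerivAt_id _)
  have hcomp : HasDerivAt (fun t : ℝ => F (p.1, t)) (A (0, 1)) p.2 := by
    have hA' : HasFDerivAt F A ((fun t : ℝ => (p.1, t)) p.2) := hA
    exact hA'.comp_hasDerivAt p.2 hline
  have hsnd : HasDerivAt (fun t : ℝ => (F (p.1, t)).2) ((A (0, 1)).2) p.2 := by
    exact (ContinuousLinearMap.snd ℝ ℝ ℝ).hasFDerivAt.comp_hasDerivAt p.2 hcomp
  have hs1 : HasDerivAt (fun t : ℝ => Real.sin (F (p.1, t)).2)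
      (Real.cos (F (p.1, p.2)).2 * (A (0, 1)).2) p.2 := hsnd.sin
  have hs2 : HasDerivAt (fun t : ℝ => -(2 * Real.sin t)) (-(2 * Real.cos p.2)) p.2 :=
    ((Real.hasDerivAt_sin p.2).const_mul 2).neg
  have hev : (fun t : ℝ => Real.sin (F (p.1, t)).2) =ᶠ[𝓝 p.2] (fun t : ℝ => -(2 * Real.sin t)) := by
    have hc : Continuous (fun t : ℝ => (p.1, t)) := by fun_prop
    have ht : Tendsto (fun t : ℝ => (p.1, t)) (𝓝 p.2) (𝓝 p) := hc.tendsto p.2
    exact ht.eventually hL
  have hs3 := hs2.congr_of_eventuallyEq hev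
  have heq := hs1.unique hs3
  have hFs : Real.sin (F p).2 = -Real.sin b := by
    rw [hL.self_of_nhds, hsin, h.2.2]
  have hFc : Real.cos (F p).2 ^ 2 = Real.cos b ^ 2 := by
    have h1 := Real.sin_sq_add_cos_sq (F p).2
    have h2 := Real.sin_sq_add_cos_sq b
    rw [hFs] at h1
    linarith [neg_sq (Real.sin b)]
  have hcb := h.cos_pos.2
  have habs : |Real.cos (F p).2| = Real.cos b := by
    rw [← abs_of_pos hcb]
    exact (sq_eq_sq_iff_abs_eq_abs _ _).1 hFc
  have h6 : Real.cos b * |(A (0, 1)).2| = 2 * Real.cos a := by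
    have h7 := congrArg abs heq
    rw [abs_mul, abs_neg, hpa] at h7
    rw [show ((p.1, a) : ℝ × ℝ) = p by rw [← hpa], habs] at h7
    rw [h7, abs_of_pos (by linarith [h.cos_pos.1])]
  have h8 : |(A (0, 1)).2| ≤ ‖A‖ := by
    have h9 : ‖A (0, 1)‖ ≤ ‖A‖ * ‖((0 : ℝ), (1 : ℝ))‖ := A.le_opNorm _
    have h10 : ‖((0 : ℝ), (1 : ℝ))‖ = 1 := by
      rw [Prod.norm_def]; simp
    rw [h10, mul_one] at h9
    exact (norm_snd_le (A (0, 1))).trans h9
  have h11 : 1 ≤ Real.cos b * ‖A‖ := by
    have := h.half_lt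
    nlinarith
  rw [inv_le_iff_one_le_mul₀ hcb]
  linarith [mul_comm ‖A‖ (Real.cos b)]

/-! ### The divergent integral -/

lemma lintegral_inv_eq_top : ∫⁻ u in Icc (0 : ℝ) 1, ENNReal.ofReal (u⁻¹) = ⊤ := by
  by_contra hne
  have hlt : ∫⁻ u in Icc (0 : ℝ) 1, ENNReal.ofReal (u⁻¹) < ⊤ := lt_top_iff_ne_top.2 hne
  have h1 : IntegrableOn (fun u : ℝ => u⁻¹) (Icc (0 : ℝ) 1) volume := by
    refine ⟨measurable_inv.aestronglyMeasurable, ?_⟩
    rw [hasFiniteIntegral_iff_ofReal]
    · exact hlt
    · refine (ae_restrict_mem measurableSet_Icc).mono fun u hu => ?_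
      exact inv_nonneg.2 hu.1
  have h2 : IntervalIntegrable (fun u : ℝ => u⁻¹) volume 0 1 := by
    rw [intervalIntegrable_iff_integrableOn_Icc_of_le zero_le_one]
    exact h1
  rw [intervalIntegrable_inv_iff] at h2
  rcases h2 with h | h
  · norm_num at h
  · exact h left_mem_uIcc

/-- The lower bound for the logarithm of the norm of the derivative. -/
noncomputable def GG (p : unitInterval × Bool) : ENNReal :=
  if p.2 = true then ENNReal.ofReal ((p.1 : ℝ)⁻¹) else 0

lemma measurable_GG : Measurable GG := by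
  refine Measurable.ite ?_ ?_ measurable_const
  · exact measurable_snd (measurableSet_singleton true)
  · exact ENNReal.measurable_ofReal.comp (measurable_inv.comp
      (measurable_subtype_coe.comp measurable_fst))

lemma lintegral_GG : ∫⁻ w, GG w.1 ∂P = ⊤ := by
  have h1 : ∫⁻ w, GG w.1 ∂P = ∫⁻ p, GG p ∂((volume : Measure unitInterval).prod coin) :=
    measurePreserving_fst.lintegral_comp measurable_GG
  rw [h1, lintegral_prod _ measurable_GG.aemeasurable]
  have h2 : ∀ u : unitInterval, ∫⁻ s, GG (u, s) ∂coin =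
      2⁻¹ * ENNReal.ofReal ((u : ℝ)⁻¹) := by
    intro u
    unfold coin
    rw [lintegral_smul_measure, lintegral_count, tsum_bool]
    simp [GG]
  simp_rw [h2]
  have h3 : Measurable (fun u : unitInterval => ENNReal.ofReal ((u : ℝ)⁻¹)) :=
    ENNReal.measurable_ofReal.comp (measurable_inv.comp measurable_subtype_coe)
  rw [lintegral_const_mul _ h3]
  have h4 : ∫⁻ u : unitInterval, ENNReal.ofReal ((u : ℝ)⁻¹) = ⊤ := by
    have h5 := lintegral_subtype_comap (μ := (volume : Measure ℝ)) (s := Icc (0 : ℝ) 1)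
      measurableSet_Icc (fun u => ENNReal.ofReal (u⁻¹))
    rw [lintegral_inv_eq_top] at h5
    exact h5
  rw [h4]
  exact ENNReal.mul_top (by simp)

/-- **Disproof.** The closed annulus `1 ≤ |z| ≤ 2` is a billiard table whose boundary has no
corners at all, and its billiard map has a non-periodic invariant Borel probability measure,
giving full mass to the regular orbits, for which the derivative exists almost everywhere and
the positive part of the logarithm of its norm has infinite integral. -/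
theorem result : ∃ (Y : Table) (μ : Measure (ℂ × ℂ)),
    Y.Q = {z : ℂ | 1 ≤ ‖z‖ ∧ ‖z‖ ≤ 2} ∧
    IsProbabilityMeasure μ ∧
    μ.map Y.T = μ ∧
    (∀ᵐ x ∂μ, Y.Regular x) ∧
    (∀ᵐ x ∂μ, ∀ n, 1 ≤ n → Y.T^[n] x ≠ x) ∧
    (∀ᵐ x ∂μ, ∃ A, Y.HasDeriv x A) ∧
    ∀ D : ℂ × ℂ → (ℝ × ℝ →L[ℝ] ℝ × ℝ), (∀ᵐ x ∂μ, Y.HasDeriv x (D x)) →
      ∫⁻ x, ENNReal.ofReal (Real.posLog ‖D x‖) ∂μ = ⊤ := by
  refine ⟨annulus, P.map Ph, rfl, ?_, ?_, ?_, ?_, ?_, ?_⟩
  · exact Measure.isProbabilityMeasure_map measurable_Ph.aemeasurable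
  · have hcomp : annulus.T ∘ Ph = Ph ∘ S := funext T_Ph
    have hae : AEMeasurable annulus.T (P.map Ph) := by
      rw [embedding_Ph.aemeasurable_map_iff, hcomp]
      exact (measurable_Ph.comp S_preserving.measurable).aemeasurable
    rw [AEMeasurable.map_map_of_aemeasurable hae measurable_Ph.aemeasurable, hcomp,
      ← Measure.map_map measurable_Ph S_preserving.measurable, S_preserving.map_eq]
  · rw [embedding_Ph.ae_map_iff]
    exact Eventually.of_forall regular_Ph
  · rw [embedding_Ph.ae_map_iff]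
    exact aperiodic
  · rw [embedding_Ph.ae_map_iff]
    exact Eventually.of_forall exists_hasDeriv
  · intro D hD
    rw [embedding_Ph.ae_map_iff] at hD
    rw [embedding_Ph.lintegral_map, eq_top_iff, ← lintegral_GG]
    refine lintegral_mono_ae ?_
    filter_upwards [hD] with w hw
    obtain ⟨⟨u, s⟩, x⟩ := w
    cases s with
    | false => simp [GG]
    | true =>
      obtain ⟨θ, hθ⟩ := exists_zz x
      rw [Ph_true u hθ] at hw
      have h1 := deriv_lower (match_ab u) θ hw
      rw [← Ph_true u hθ] at h1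
      simp only [GG, if_true]
      refine ENNReal.ofReal_le_ofReal ?_
      rw [cos_bb u.2.1] at h1
      have h2 : (u : ℝ)⁻¹ ≤ Real.log ‖D (Ph ((u, true), x))‖ := by
        have h3 := Real.log_le_log (by positivity) h1
        rwa [Real.log_inv, Real.log_exp, neg_neg] at h3
      exact h2.trans (le_max_right _ _)

end Pool.Agent.Results.MP_94eb8e_an.Annulus
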